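import Pool.Agent.X56.RevCyc

/-!
MP_8c5d11_nt: cycles of the iterated add-or-subtract digit reversal map.

`rev D` reads the decimal digits of `D` in reverse order, and `T D = D - rev D` if `rev D < D`,
`T D = D + rev D` otherwise (both in `Pool.Agent.X56.RevCyc`).  We exhibit cycles of lengths
20, 22 and 32; the lengths found before were 2, 10, 12 and 71.
-/

namespace Pool.Agent.Results.MP_8c5d11_nt.NewCycleLengths

open Pool.Agent.X56.RevCyc

/-- `D` is a positive integer lying on a cycle of `T` of length exactly `p`. -/
def OnCycle (D p : ℕ) : Prop :=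
  0 < D ∧ 0 < p ∧ T^[p] D = D ∧ ∀ k, 0 < k → k < p → T^[k] D ≠ D

theorem cycle20 : OnCycle 1089072379890109891092762010989 20 := by
  have h : run 45 (10 ^ 45) 1089072379890109891092762010989 1089072379890109891092762010989 19
      = true := by decide +kernel
  exact ⟨by norm_num, by norm_num, run_spec (by norm_num) 19 _ h⟩

theorem cycle22 : OnCycle 34847924890941039005986091157024057 22 := by
  have h : run 45 (10 ^ 45) 34847924890941039005986091157024057
      34847924890941039005986091157024057 21 = true := by decide +kernel
  exact ⟨by norm_num, by norm_num, run_spec (by norm_num) 21 _ h⟩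

theorem cycle32 : OnCycle 109999998901089108900010999989 32 := by
  have h : run 45 (10 ^ 45) 109999998901089108900010999989
      109999998901089108900010999989 31 = true := by decide +kernel
  exact ⟨by norm_num, by norm_num, run_spec (by norm_num) 31 _ h⟩

/-- The add-or-subtract digit reversal map has cycles of lengths 20, 22 and 32. -/
theorem result : (∃ D, OnCycle D 20) ∧ (∃ D, OnCycle D 22) ∧ (∃ D, OnCycle D 32) :=
  ⟨⟨_, cycle20⟩, ⟨_, cycle22⟩, ⟨_, cycle32⟩⟩

end Pool.Agent.Results.MP_8c5d11_nt.NewCycleLengths
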